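import Pool.Agent.Helper92.RECT.Goals5
import Pool.Agent.Helper15.OHS.LSW

/-!
# Packet RECT-CHL: the check of a period is computed in linear space
-/

set_option linter.unusedSectionVars false

namespace Pool.Agent.Helper98.RECT

open Pool.Agent.Helper65.LinSpace Pool.Agent.Helper78.Mpc Pool.Agent.Helper28.Ram Finset
open Pool.Agent.Helper65.OH (Prm)
open Pool.Agent.Helper54.OH (PF)
open Pool.Agent.Helper81.Sus2 (LSP)
open Pool.Agent.Helper81.Sus2H56 (lsp_comp)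
open Pool.Agent.Helper15.OHS (ls_cs ls_cn ls_cellN)
open Pool.Agent.Helper28.OHS (cellN cs cn)
open Pool.Agent.Helper28.Sus (rc rc_le)
open Pool.Agent.Helper92.RECT

/-! ### Bounds -/

theorem lt01_le (x y : ℕ) : lt01 x y ≤ 1 := by
  unfold lt01
  split_ifs <;> omega

theorem le01_le (x y : ℕ) : le01 x y ≤ 1 := by
  unfold le01
  split_ifs <;> omega

theorem eq01_le (x y : ℕ) : eq01 x y ≤ 1 := by
  unfold eq01
  split_ifs <;> omega

theorem ifz_le {c x y B : ℕ} (hx : x ≤ B) (hy : y ≤ B) : ifz c x y ≤ B := by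
  unfold ifz
  split_ifs <;> assumption

theorem mul_le_one {x y : ℕ} (hx : x ≤ 1) (hy : y ≤ 1) : x * y ≤ 1 := by
  calc x * y ≤ 1 * 1 := Nat.mul_le_mul hx hy
    _ = 1 := rfl

theorem btw_le (s : Sp) (a b g : ℕ) : s.btw a b g ≤ 1 := mul_le_one (le01_le _ _) (lt01_le _ _)

theorem ouc_le (s : Sp) (a b : ℕ) : s.ouc a b ≤ 1 := ifz_le (eq01_le _ _) le_rfl

/-! ### Families of parameters -/

/-- The data of the check, in the context `α`. -/
structure Dat {α : Type} [Ctx α] (s : α → Sp) (C tw N k d : α → ℕ) (F : α → Sp → ℕ → ℕ) :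
    Prop where
  h : LSb s C
  htw : LS tw
  hN : LS N
  hk : LS k
  hd : LS d
  btw : ∀ z, 2 ^ tw z ≤ C z
  bZ : ∀ z, ((s z).ZZ (tw z) (N z) + 2) ^ (4 * (k z + 1)) ≤ C z
  hF : LS (fun z : α × ℕ × ℕ × ℕ × ℕ × ℕ × ℕ × ℕ × ℕ × ℕ =>
      F z.1 ((s z.1).put z.2.1 z.2.2.1 z.2.2.2.1 z.2.2.2.2.1 z.2.2.2.2.2.1 z.2.2.2.2.2.2.1
        z.2.2.2.2.2.2.2.1 z.2.2.2.2.2.2.2.2.1) z.2.2.2.2.2.2.2.2.2)

section

variable {α β : Type} [Ctx α] [Ctx β] {s : α → Sp} {C tw N k d : α → ℕ} {F : α → Sp → ℕ → ℕ}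

theorem lsb_comp (h : LSb s C) {π : β → α} (hπ : LS π) :
    LSb (fun b => s (π b)) (fun b => C (π b)) where
  m := h.m.comp hπ
  G := h.G.comp hπ
  e := lsp_comp h.e hπ
  ν := LS.comp (g := fun z => (s z).ν) h.ν hπ
  te := LS.comp (g := fun z => (s z).te) h.te hπ
  π := LS.comp (g := fun z => (s z).π) h.π hπ
  S := fun b => h.S (π b)
  D := fun b => h.D (π b)
  pos := fun b => h.pos (π b)
  κ := fun b => h.κ (π b)
  d1 := fun b => h.d1 (π b)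
  nm := fun b => h.nm (π b)
  hθ := fun b => h.hθ (π b)
  hπ := fun b => h.hπ (π b)

theorem Dat.comp (h : Dat s C tw N k d F) {π : β → α} (hπ : LS π) :
    Dat (fun b => s (π b)) (fun b => C (π b)) (fun b => tw (π b)) (fun b => N (π b))
      (fun b => k (π b)) (fun b => d (π b)) (fun b => F (π b)) where
  h := lsb_comp h.h hπ
  htw := LS.comp (g := tw) h.htw hπ
  hN := LS.comp (g := N) h.hN hπ
  hk := LS.comp (g := k) h.hk hπ
  hd := LS.comp (g := d) h.hd hπ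
  btw := fun b => h.btw (π b)
  bZ := fun b => h.bZ (π b)
  hF := LS.comp (g := fun z : α × ℕ × ℕ × ℕ × ℕ × ℕ × ℕ × ℕ × ℕ × ℕ =>
      F z.1 ((s z.1).put z.2.1 z.2.2.1 z.2.2.2.1 z.2.2.2.2.1 z.2.2.2.2.2.1 z.2.2.2.2.2.2.1
        z.2.2.2.2.2.2.2.1 z.2.2.2.2.2.2.2.2.1) z.2.2.2.2.2.2.2.2.2)
      (f := fun z : β × ℕ × ℕ × ℕ × ℕ × ℕ × ℕ × ℕ × ℕ × ℕ => (π z.1, z.2)) h.hF
      (LS.prodMk (LS.comp (g := π) hπ LS.fst) LS.snd)

/-! ### Powers -/

theorem pπ (h : LSb s C) : LS (fun z => 2 ^ ((s z).π + 1)) :=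
  LS.pow_of_le (f := fun _ => 2) (LS.const 2) (LS.add h.π (LS.const 1)) h.m.hC h.hπ

theorem pπ0 (h : LSb s C) : LS (fun z => 2 ^ (s z).π) :=
  LS.pow_of_le (f := fun _ => 2) (LS.const 2) h.π h.m.hC fun z =>
    (Nat.pow_le_pow_right (by norm_num) (Nat.le_succ _)).trans (h.hπ z)

theorem pκ2 (h : LSb s C) : LS (fun z => 2 ^ ((s z).m.κ - 2)) :=
  LS.pow_of_le (f := fun _ => 2) (LS.const 2) (LS.sub h.m.κ (LS.const 2)) h.m.hC fun z =>
    (Nat.pow_le_pow_right (by norm_num) (Nat.sub_le _ _)).trans (h.m.b4 z)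

theorem pte (h : LSb s C) : LS (fun z => 2 ^ (s z).te) :=
  LS.pow_of_le (f := fun _ => 2) (LS.const 2) h.te h.m.hC fun z =>
    (Nat.pow_le_pow_right (by norm_num) (by unfold Sp.θ; omega)).trans (h.hθ z)

theorem ptw (h : Dat s C tw N k d F) : LS (fun z => 2 ^ tw z) :=
  LS.pow_of_le (f := fun _ => 2) (LS.const 2) h.htw h.h.m.hC h.btw

theorem pGD (h : LSb s C) : LS (fun z => 2 ^ ((s z).G.κ * (s z).m.D)) :=
  LS.pow_of_le (f := fun _ => 2) (LS.const 2) (LS.mul h.G.κ h.m.D) h.m.hC fun z => by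
    rw [pow_mul, ← h.D z]
    exact h.G.b5 z

theorem bZ1 (h : Dat s C tw N k d F) (z : α) : (s z).ZZ (tw z) (N z) ≤ C z := by
  refine le_trans ?_ (h.bZ z)
  calc (s z).ZZ (tw z) (N z) ≤ ((s z).ZZ (tw z) (N z) + 2) ^ 1 := by rw [pow_one]; omega
    _ ≤ _ := Nat.pow_le_pow_right (by omega) (by omega)

theorem psgN (h : Dat s C tw N k d F) : LS (fun z => 2 ^ ((s z).m.sg * N z)) := by
  have h1 : LS (fun z => (s z).m.sg) := by
    unfold Prm.sg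
    exact LS.add (LS.add h.h.m.S (LS.const 1)) (LS.mul h.h.m.κ h.h.m.D)
  refine LS.pow_of_le (f := fun _ => 2) (LS.const 2) (LS.mul h1 h.hN) h.h.m.hC fun z => ?_
  refine le_trans ?_ (bZ1 h z)
  unfold Sp.ZZ
  have h2 : 1 ≤ 2 ^ ((s z).π + 1) := Nat.one_le_two_pow
  have h3 : 1 ≤ 2 ^ tw z := Nat.one_le_two_pow
  calc 2 ^ ((s z).m.sg * N z) = 1 * (1 * 2 ^ ((s z).m.sg * N z)) := by ring
    _ ≤ _ := Nat.mul_le_mul h2 (Nat.mul_le_mul_right _ h3)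

theorem ls_ZZ (h : Dat s C tw N k d F) : LS (fun z => (s z).ZZ (tw z) (N z)) :=
  LS.mul (pπ h.h) (LS.mul (ptw h) (psgN h))

/-! ### Vertices and edges -/

theorem ls_vP (h : LSb s C) {v : α → ℕ} (hv : LS v) : LS (fun z => (s z).vP (v z)) :=
  LS.mod hv (pπ h)

theorem ls_vT (h : Dat s C tw N k d F) {v : α → ℕ} (hv : LS v) :
    LS (fun z => (s z).vT (tw z) (v z)) :=
  LS.mod (LS.div hv (pπ h.h)) (ptw h)

theorem ls_vL (h : Dat s C tw N k d F) {v : α → ℕ} (hv : LS v) :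
    LS (fun z => (s z).vL (tw z) (v z)) :=
  LS.div (LS.div hv (pπ h.h)) (ptw h)

theorem ls_F (h : Dat s C tw N k d F) {Ph W n L R c f al o : α → ℕ} (h1 : LS Ph) (h2 : LS W)
    (h3 : LS n) (h4 : LS L) (h5 : LS R) (h6 : LS c) (h7 : LS f) (h8 : LS al) (h9 : LS o) :
    LS (fun z => F z ((s z).put (Ph z) (W z) (n z) (L z) (R z) (c z) (f z) (al z)) (o z)) :=
  LS.comp (g := fun z : α × ℕ × ℕ × ℕ × ℕ × ℕ × ℕ × ℕ × ℕ × ℕ =>
      F z.1 ((s z.1).put z.2.1 z.2.2.1 z.2.2.2.1 z.2.2.2.2.1 z.2.2.2.2.2.1 z.2.2.2.2.2.2.1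
        z.2.2.2.2.2.2.2.1 z.2.2.2.2.2.2.2.2.1) z.2.2.2.2.2.2.2.2.2)
    (f := fun z => (z, Ph z, W z, n z, L z, R z, c z, f z, al z, o z)) h.hF
    (LS.prodMk (by fun_prop) (LS.prodMk h1 (LS.prodMk h2 (LS.prodMk h3 (LS.prodMk h4 (LS.prodMk h5
      (LS.prodMk h6 (LS.prodMk h7 (LS.prodMk h8 h9)))))))))

theorem ls_sum_edge (h : Dat s C tw N k d F) {c f al v w : α → ℕ} (hc : LS c) (hf : LS f)
    (hal : LS al) (hv : LS v) (hw : LS w) :
    LS (fun z => ∑ o ∈ range (d z),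
      eq01 (F z (((s z).cfa (c z) (f z) (al z)).sE (tw z) (v z) (w z)) o) 1) := by
  have p1 : LS (fun p : α × ℕ => p.1) := LS.fst
  have h1 := h.comp (π := fun p : α × ℕ => p.1) p1
  have c1 := LS.comp (g := c) hc p1
  have f1 := LS.comp (g := f) hf p1
  have al1 := LS.comp (g := al) hal p1
  have v1 := LS.comp (g := v) hv p1
  have w1 := LS.comp (g := w) hw p1
  have h2 := ls_F h1 (ls_vP h1.h v1) (LS.sub (ls_vP h1.h w1) (ls_vP h1.h v1))
    (LS.sub (ls_vT h1 w1) (ls_vT h1 v1)) (ls_vL h1 v1) (ls_vL h1 w1) c1 f1 al1 LS.snd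
  exact LS.sum_le (N := d) (B := fun _ => 1)
    (f := fun z o => eq01 (F z (((s z).cfa (c z) (f z) (al z)).sE (tw z) (v z) (w z)) o) 1)
    (LS.eq01 h2 (LS.const 1)) h.hd (LS.const 1) (fun z i _ => eq01_le _ _)

theorem ls_edge (h : Dat s C tw N k d F) {c f al v w : α → ℕ} (hc : LS c) (hf : LS f)
    (hal : LS al) (hv : LS v) (hw : LS w) :
    LS (fun z => ((s z).cfa (c z) (f z) (al z)).edge (tw z) (d z) (F z) (v z) (w z)) := by
  have hP := ls_vP h.h hv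
  have hP' := ls_vP h.h hw
  have hT := ls_vT h hv
  have hT' := ls_vT h hw
  have h1 := pκ2 h.h
  have h2 := pte h.h
  exact LS.mul (LS.lt01 hP hP') (LS.mul (LS.le01 (LS.sub hP' hP) h1)
    (LS.mul (LS.le01 hT hT') (LS.mul (LS.lt01 (LS.sub hT' hT) h2)
      (LS.lt01 (LS.const 0) (ls_sum_edge h hc hf hal hv hw)))))

theorem ls_edgL (h : Dat s C tw N k d F) {c f al v w : α → ℕ} (hc : LS c) (hf : LS f)
    (hal : LS al) (hv : LS v) (hw : LS w) :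
    LS (fun z => ((s z).cfa (c z) (f z) (al z)).edgL (tw z) (d z) (F z) (v z) (w z)) :=
  LS.ifz (LS.eq01 hv hw) (ls_edge h hc hf hal hv hw) (LS.const 1)

/-! ### Boxes and contents -/

theorem ls_btw (h : LSb s C) {c f al a b g : α → ℕ} (ha : LS a) (hb : LS b) (hg : LS g) :
    LS (fun z => ((s z).cfa (c z) (f z) (al z)).btw (a z) (b z) (g z)) := by
  have h1 := pπ0 h
  have h2 := h.G.pκ'
  exact LS.mul (LS.le01 (LS.add ha h2) (LS.add hg h1))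
    (LS.lt01 (LS.add hg h1) (LS.add hb h2))

theorem ls_oth (h : LSb s C) {c f al p : α → ℕ} (hp : LS p) :
    LS (fun z => ((s z).cfa (c z) (f z) (al z)).oth (p z)) := by
  have p1 : LS (fun p : α × ℕ => p.1) := LS.fst
  have h1 := lsb_comp h (π := fun p : α × ℕ => p.1) p1
  have hp1 := LS.comp (g := p) hp p1
  have h2 : LS (fun q : α × ℕ => dig (2 ^ (s q.1).G.κ) (p q.1) q.2 + 2 ^ ((s q.1).m.κ - 1)) :=
    LS.add (LS.dig h1.G.pκ hp1 LS.snd) h1.m.pκ'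
  have h3 : LS (fun q : α × ℕ => 1 - ifz q.2 1
      (le01 (2 ^ ((s q.1).G.κ - 1))
        (dig (2 ^ (s q.1).G.κ) (p q.1) q.2 + 2 ^ ((s q.1).m.κ - 1)) *
      lt01 (dig (2 ^ (s q.1).G.κ) (p q.1) q.2 + 2 ^ ((s q.1).m.κ - 1) -
        2 ^ ((s q.1).G.κ - 1)) (2 ^ (s q.1).m.κ))) :=
    LS.sub (LS.const 1) (LS.ifz LS.snd (LS.const 1) (LS.mul (LS.le01 h1.G.pκ' h2)
      (LS.lt01 (LS.sub h2 h1.G.pκ') h1.m.pκ)))
  exact LS.eq01 (LS.sum_le (N := fun z => (s z).m.D) (B := fun _ => 1)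
    (f := fun z j => 1 - ifz j 1
      (le01 (2 ^ ((s z).G.κ - 1)) (dig (2 ^ (s z).G.κ) (p z) j + 2 ^ ((s z).m.κ - 1)) *
      lt01 (dig (2 ^ (s z).G.κ) (p z) j + 2 ^ ((s z).m.κ - 1) - 2 ^ ((s z).G.κ - 1))
        (2 ^ (s z).m.κ))) h3 h.m.D (LS.const 1) (fun z i _ => Nat.sub_le _ _)) (LS.const 0)

theorem ls_nm (h : LSb s C) {c f al p : α → ℕ} (hp : LS p) :
    LS (fun z => ((s z).cfa (c z) (f z) (al z)).nm (p z)) := by
  have p1 : LS (fun p : α × ℕ => p.1) := LS.fst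
  have h1 := lsb_comp h (π := fun p : α × ℕ => p.1) p1
  have hp1 := LS.comp (g := p) hp p1
  have h2 : LS (fun z => cellN (s z).G.κ (dig (2 ^ (s z).G.κ) (p z)) (s z).G.D) :=
    ls_cellN h.G (fun z => by rw [h.D z]; exact h.nm z)
      (u := fun z k => dig (2 ^ (s z).G.κ) (p z) k) (LS.dig h1.G.pκ hp1 LS.snd)
      (fun z k => (dig_lt (by positivity) _ _).le)
  refine LS.congr h2 fun z => ?_
  rw [h.D z]
  rfl

theorem ls_hp (h : LSb s C) {c f al : α → ℕ} (hc : LS c) :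
    LS (fun z => ((s z).cfa (c z) (f z) (al z)).hp) :=
  LS.div (ls_cs h.G hc) h.m.pS

theorem ls_ouc (h : LSb s C) {c f al a b : α → ℕ} (hc : LS c) (hf : LS f) (hal : LS al)
    (ha : LS a) (hb : LS b) :
    LS (fun z => ((s z).cfa (c z) (f z) (al z)).ouc (a z) (b z)) := by
  have h1 := ls_btw (c := c) (f := f) (al := al) h ha hb (LS.dig h.G.pκ hal (LS.const 0))
  have h2 := ls_oth (c := c) (f := f) (al := al) h hal
  have h3 := ls_nm (c := c) (f := f) (al := al) h hal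
  exact LS.ifz (LS.mul h1 h2) (LS.eq01 (ls_cn h.G h.e hc h3) (ls_cn h.G h.e hf h3)) (LS.const 1)

/-! ### Paths -/

theorem ls_rc (h : Dat s C tw N k d F) {c f al a b τ : α → ℕ} (hc : LS c) (hf : LS f)
    (hal : LS al) (ha : LS a) (hb : LS b) (hτ : LS τ) :
    LS (fun z => rc (((s z).cfa (c z) (f z) (al z)).edgL (tw z) (d z) (F z))
      ((s z).ZZ (tw z) (N z)) (k z) (a z % 2 ^ ((s z).π + 1))
      (b z % 2 ^ ((s z).π + 1) + 2 ^ ((s z).π + 1) * (τ z % 2 ^ tw z))) := by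
  have p1 : LS (fun p : α × ℕ × ℕ => p.1) := LS.fst
  have h1 := h.comp (π := fun p : α × ℕ × ℕ => p.1) p1
  have c1 := LS.comp (g := c) hc p1
  have f1 := LS.comp (g := f) hf p1
  have al1 := LS.comp (g := al) hal p1
  have v1 : LS (fun p : α × ℕ × ℕ => p.2.1) := by fun_prop
  have w1 : LS (fun p : α × ℕ × ℕ => p.2.2) := by fun_prop
  have hE := ls_edgL h1 c1 f1 al1 v1 w1
  have hp := pπ h.h
  refine Pool.Agent.Helper28.Sus.LS.rc
    (E := fun z => ((s z).cfa (c z) (f z) (al z)).edgL (tw z) (d z) (F z))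
    (Z := fun z => (s z).ZZ (tw z) (N z)) (C := C) hE (ls_ZZ h) h.hk (LS.mod ha hp)
    (LS.add (LS.mod hb hp) (LS.mul hp (LS.mod hτ (ptw h)))) h.h.m.hC h.bZ ?_ ?_
  · intro z
    have e1 : a z % 2 ^ ((s z).π + 1) < 2 ^ ((s z).π + 1) := Nat.mod_lt _ (by positivity)
    have e2 : 2 ^ ((s z).π + 1) ≤ (s z).ZZ (tw z) (N z) := by
      unfold Sp.ZZ
      exact Nat.le_mul_of_pos_right _ (by positivity)
    omega
  · intro z
    have e1 : b z % 2 ^ ((s z).π + 1) < 2 ^ ((s z).π + 1) := Nat.mod_lt _ (by positivity)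
    have e2 : τ z % 2 ^ tw z < 2 ^ tw z := Nat.mod_lt _ (by positivity)
    have e3 : 2 ^ ((s z).π + 1) * (τ z % 2 ^ tw z + 1) ≤ (s z).ZZ (tw z) (N z) := by
      unfold Sp.ZZ
      refine Nat.mul_le_mul_left _ (e2.trans_le ?_)
      exact Nat.le_mul_of_pos_right _ (by positivity)
    rw [Nat.mul_add, Nat.mul_one] at e3
    omega

/-- A term of the sum in `pth`, with the ends replaced by their residues in the path. -/
theorem ls_term (h : Dat s C tw N k d F) {c f al a b τ : α → ℕ} (hc : LS c) (hf : LS f)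
    (hal : LS al) (ha : LS a) (hb : LS b) (hτ : LS τ) :
    LS (fun z => ((s z).cfa (c z) (f z) (al z)).btw (a z) (b z)
        (dig (2 ^ (s z).G.κ) ((s z).cfa (c z) (f z) (al z)).hp 0) *
      (ifz (f z) 1 (((s z).cfa (c z) (f z) (al z)).ouc (a z) (b z)) *
        rc (((s z).cfa (c z) (f z) (al z)).edgL (tw z) (d z) (F z))
          ((s z).ZZ (tw z) (N z)) (k z) (a z % 2 ^ ((s z).π + 1))
          (b z % 2 ^ ((s z).π + 1) + 2 ^ ((s z).π + 1) * (τ z % 2 ^ tw z)))) := by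
  have h1 := ls_hp (f := f) (al := al) h.h hc
  have h2 := ls_btw (c := c) (f := f) (al := al) h.h ha hb (LS.dig h.h.G.pκ h1 (LS.const 0))
  exact LS.mul h2 (LS.mul (LS.ifz hf (LS.const 1) (ls_ouc h.h hc hf hal ha hb))
    (ls_rc h hc hf hal ha hb hτ))

theorem ls_pth (h : Dat s C tw N k d F) {c f al τ : α → ℕ} (hc : LS c) (hf : LS f)
    (hal : LS al) (hτ : LS τ) :
    LS (fun z => ((s z).cfa (c z) (f z) (al z)).pth (tw z) (N z) (k z) (d z) (F z) (τ z)) := by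
  have p1 : LS (fun p : (α × ℕ) × ℕ => p.1.1) := by fun_prop
  have h1 := h.comp (π := fun p : (α × ℕ) × ℕ => p.1.1) p1
  have c1 := LS.comp (g := c) hc p1
  have f1 := LS.comp (g := f) hf p1
  have al1 := LS.comp (g := al) hal p1
  have τ1 := LS.comp (g := τ) hτ p1
  have a1 : LS (fun p : (α × ℕ) × ℕ => p.1.2) := by fun_prop
  have b1 : LS (fun p : (α × ℕ) × ℕ => p.2) := by fun_prop
  have ht := ls_term h1 c1 f1 al1 a1 b1 τ1
  have hp := pπ h.h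
  have hp1 : LS (fun p : α × ℕ => 2 ^ ((s p.1).π + 1)) :=
    LS.comp (g := fun z => 2 ^ ((s z).π + 1)) hp LS.fst
  have tle : ∀ z a b, ((s z).cfa (c z) (f z) (al z)).btw a b
        (dig (2 ^ (s z).G.κ) ((s z).cfa (c z) (f z) (al z)).hp 0) *
      (ifz (f z) 1 (((s z).cfa (c z) (f z) (al z)).ouc a b) *
        rc (((s z).cfa (c z) (f z) (al z)).edgL (tw z) (d z) (F z))
          ((s z).ZZ (tw z) (N z)) (k z) (a % 2 ^ ((s z).π + 1))
          (b % 2 ^ ((s z).π + 1) + 2 ^ ((s z).π + 1) * (τ z % 2 ^ tw z))) ≤ 1 := fun z a b =>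
    mul_le_one (btw_le _ _ _ _) (mul_le_one (ifz_le le_rfl (ouc_le _ _ _)) (rc_le _ _ _ _ _))
  have h2 : LS (fun p : α × ℕ => ∑ b ∈ range (2 ^ ((s p.1).π + 1)),
      ((s p.1).cfa (c p.1) (f p.1) (al p.1)).btw p.2 b
        (dig (2 ^ (s p.1).G.κ) ((s p.1).cfa (c p.1) (f p.1) (al p.1)).hp 0) *
      (ifz (f p.1) 1 (((s p.1).cfa (c p.1) (f p.1) (al p.1)).ouc p.2 b) *
        rc (((s p.1).cfa (c p.1) (f p.1) (al p.1)).edgL (tw p.1) (d p.1) (F p.1))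
          ((s p.1).ZZ (tw p.1) (N p.1)) (k p.1) (p.2 % 2 ^ ((s p.1).π + 1))
          (b % 2 ^ ((s p.1).π + 1) + 2 ^ ((s p.1).π + 1) * (τ p.1 % 2 ^ tw p.1)))) :=
    LS.sum_le (N := fun p : α × ℕ => 2 ^ ((s p.1).π + 1)) (B := fun _ => 1)
      (f := fun p b => ((s p.1).cfa (c p.1) (f p.1) (al p.1)).btw p.2 b
        (dig (2 ^ (s p.1).G.κ) ((s p.1).cfa (c p.1) (f p.1) (al p.1)).hp 0) *
      (ifz (f p.1) 1 (((s p.1).cfa (c p.1) (f p.1) (al p.1)).ouc p.2 b) *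
        rc (((s p.1).cfa (c p.1) (f p.1) (al p.1)).edgL (tw p.1) (d p.1) (F p.1))
          ((s p.1).ZZ (tw p.1) (N p.1)) (k p.1) (p.2 % 2 ^ ((s p.1).π + 1))
          (b % 2 ^ ((s p.1).π + 1) + 2 ^ ((s p.1).π + 1) * (τ p.1 % 2 ^ tw p.1))))
      ht hp1 (LS.const 1) (fun p b _ => tle p.1 p.2 b)
  have h3 : LS (fun z => ∑ a ∈ range (2 ^ ((s z).π + 1)), ∑ b ∈ range (2 ^ ((s z).π + 1)),
      ((s z).cfa (c z) (f z) (al z)).btw a b
        (dig (2 ^ (s z).G.κ) ((s z).cfa (c z) (f z) (al z)).hp 0) *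
      (ifz (f z) 1 (((s z).cfa (c z) (f z) (al z)).ouc a b) *
        rc (((s z).cfa (c z) (f z) (al z)).edgL (tw z) (d z) (F z))
          ((s z).ZZ (tw z) (N z)) (k z) (a % 2 ^ ((s z).π + 1))
          (b % 2 ^ ((s z).π + 1) + 2 ^ ((s z).π + 1) * (τ z % 2 ^ tw z)))) :=
    LS.sum_le (N := fun z => 2 ^ ((s z).π + 1)) (B := fun z => 2 ^ ((s z).π + 1))
      (f := fun z a => ∑ b ∈ range (2 ^ ((s z).π + 1)),
      ((s z).cfa (c z) (f z) (al z)).btw a b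
        (dig (2 ^ (s z).G.κ) ((s z).cfa (c z) (f z) (al z)).hp 0) *
      (ifz (f z) 1 (((s z).cfa (c z) (f z) (al z)).ouc a b) *
        rc (((s z).cfa (c z) (f z) (al z)).edgL (tw z) (d z) (F z))
          ((s z).ZZ (tw z) (N z)) (k z) (a % 2 ^ ((s z).π + 1))
          (b % 2 ^ ((s z).π + 1) + 2 ^ ((s z).π + 1) * (τ z % 2 ^ tw z))))
      h2 hp hp (fun z a _ => by
        refine (sum_le_sum fun b _ => tle z a b).trans ?_
        simp)
  refine LS.congr h3 fun z => ?_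
  unfold Sp.pth
  refine sum_congr rfl fun a ha => sum_congr rfl fun b hb => ?_
  rw [Nat.mod_eq_of_lt (mem_range.1 ha), Nat.mod_eq_of_lt (mem_range.1 hb)]
  rfl

end

/-- **Packet RECT-CHL.** -/
theorem chl : CHL_stmt := by
  intro α _ s C h tw N k d htw hN hk hd hbt hbZ F hF
  have hD : Dat s C tw N k d F := ⟨h, htw, hN, hk, hd, hbt, hbZ, hF⟩
  constructor
  · -- the check
    have p1 : LS (fun z : α × ℕ × ℕ × ℕ => z.1) := LS.fst
    have h1 := hD.comp (π := fun z : α × ℕ × ℕ × ℕ => z.1) p1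
    have p2 : LS (fun z : (α × ℕ × ℕ × ℕ) × ℕ => z.1.1) := by fun_prop
    have h2 := hD.comp (π := fun z : (α × ℕ × ℕ × ℕ) × ℕ => z.1.1) p2
    have c2 : LS (fun z : (α × ℕ × ℕ × ℕ) × ℕ => z.1.2.1) := by fun_prop
    have τ2 : LS (fun z : (α × ℕ × ℕ × ℕ) × ℕ => z.1.2.2.1) := by fun_prop
    have f2 : LS (fun z : (α × ℕ × ℕ × ℕ) × ℕ => z.1.2.2.2) := by fun_prop
    have al2 : LS (fun z : (α × ℕ × ℕ × ℕ) × ℕ => z.2) := by fun_prop
    have h3 := ls_pth h2 c2 f2 al2 τ2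
    have h4 : LS (fun z : α × ℕ × ℕ × ℕ => ∑ al ∈ range (2 ^ ((s z.1).G.κ * (s z.1).m.D)),
        (1 - lt01 0 (((s z.1).cfa z.2.1 z.2.2.2 al).pth (tw z.1) (N z.1) (k z.1) (d z.1)
          (F z.1) z.2.2.1))) :=
      LS.sum_le (N := fun z : α × ℕ × ℕ × ℕ => 2 ^ ((s z.1).G.κ * (s z.1).m.D))
        (B := fun _ => 1)
        (f := fun z al => 1 - lt01 0 (((s z.1).cfa z.2.1 z.2.2.2 al).pth (tw z.1) (N z.1)
          (k z.1) (d z.1) (F z.1) z.2.2.1))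
        (LS.sub (LS.const 1) (LS.lt01 (LS.const 0) h3)) (pGD h1.h) (LS.const 1)
        (fun z i _ => Nat.sub_le _ _)
    have τ1 : LS (fun z : α × ℕ × ℕ × ℕ => z.2.2.1) := by fun_prop
    have f1 : LS (fun z : α × ℕ × ℕ × ℕ => z.2.2.2) := by fun_prop
    exact LS.mul (LS.lt01 (LS.const 0) τ1) (LS.mul (LS.lt01 (LS.const 0) f1)
      (LS.eq01 h4 (LS.const 0)))
  · have p1 : LS (fun z : α × ℕ × ℕ => z.1) := LS.fst
    have h1 := hD.comp (π := fun z : α × ℕ × ℕ => z.1) p1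
    have c1 : LS (fun z : α × ℕ × ℕ => z.2.1) := by fun_prop
    have τ1 : LS (fun z : α × ℕ × ℕ => z.2.2) := by fun_prop
    exact LS.lt01 (LS.const 0) (ls_pth (f := fun _ => 0) (al := fun _ => 0) h1 c1
      (LS.const 0) (LS.const 0) τ1)

end Pool.Agent.Helper98.RECT
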